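import Mathlib
import Pool.Agent.LibPCM.Main

set_option autoImplicit false

/-!
The universal theory of the partially commutative metabelian group of the graph which is the
disjoint union of two paths with three vertices is undecidable.

Outline. Write a, b, c and d, e, f for the generators of the two paths, so that b commutes with
a and c, and e commutes with d and f. The base constraints
[a,b] = [b,c] = [d,e] = [e,f] = 1, [e,[a,[a,c]]] ≠ 1, [b,[d,[d,f]]] ≠ 1
force (up to the automorphism exchanging the paths) the classes of b and e in the
abelianization to be non-zero multiples of the generators, while a is not in the isolated
subgroup of b. The equation [X,[a,e]] = [b,w] then forces the class of X to be an integer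
multiple ζ of the class of b, and [X,e] = [b,Y][b,u][e,v] transfers the integer ζ to the
e-coordinate of Y. Multiplication of integers is expressed by [X,Y'] = [Z,e][b,u][e,v]. Hence
solvability of polynomial equations over the integers is encoded, and the theorem of Davis,
Putnam, Robinson and Matiyasevich (proved in Pool.Agent.LibMRDP) applies.
-/

namespace Pool.Agent.Results.MP_4f8676_lc.TwoPathsUndecidable

open Pool.Agent.LibPCM

theorem result : ¬ UniversalTheoryDecidable (PCMetabelian twoPaths) :=
  universal_theory_undecidable

end Pool.Agent.Results.MP_4f8676_lc.TwoPathsUndecidable
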